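import Mathlib
import Pool.Agent.Helper64.FreeAll

set_option autoImplicit false

/-!
The lower bound of `Pool.Agent.Helper64.FreeAll` (author of the proof: helper64) with the three
conclusions that the pair is large: `K ≤ |F| + |G|`, `s < |F|`, `s < |G|`.
-/

namespace Pool.Agent.Helper64.Free

/-- the lower bound for all recursions of Fredman-Khachiyan type -/
theorem free_lower_strong (K : ℕ) : ∃ (V : Type) (_ : Fintype V) (_ : DecidableEq V)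
    (F G : Finset (Finset V)) (s r : ℕ), IsDualPair F G ∧ K ≤ F.card + G.card ∧
      s < F.card ∧ s < G.card ∧ K ≤ r ∧
      Nat.log 2 (F.card + G.card) ≤ r ^ 16 ∧ F.card + G.card ≤ s ^ 16000 ∧
      (∃ k, Run s F G k) ∧ ∀ k, Run s F G k → (F.card + G.card) ^ r ≤ k := by
  classical
  obtain ⟨c0, hc0⟩ : ∃ c0 : ℕ, c0 = 2000 * 16000 ^ 15 := ⟨_, rfl⟩
  obtain ⟨a, n, p, T, hA, hp, h⟩ := exists_Nums (8000 * (K + c0 + 1))
  have : Fact p.Prime := ⟨hp⟩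
  obtain ⟨d, hd⟩ : ∃ d, d = 100 * (n ^ 3 * T) * p := ⟨_, rfl⟩
  obtain ⟨e1, he1⟩ : ∃ e1, e1 = 25 * (n ^ 3 * T) * p := ⟨_, rfl⟩
  obtain ⟨L, hL⟩ : ∃ L, L = 10 * n ^ 2 + 9 + 2 * n := ⟨_, rfl⟩
  obtain ⟨lam0, hlam0⟩ : ∃ lam0, lam0 = n * (L + 1) + 1 := ⟨_, rfl⟩
  obtain ⟨lam1, hlam1⟩ : ∃ lam1, lam1 = lam0 + n := ⟨_, rfl⟩
  obtain ⟨th, hth⟩ : ∃ th, th = 8 * n ^ 2 * (p * p) + 1 := ⟨_, rfl⟩
  obtain ⟨m, hm⟩ : ∃ m, m = 3 * th := ⟨_, rfl⟩
  obtain ⟨β, hβ⟩ : ∃ β, β = p / n + 1 := ⟨_, rfl⟩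
  obtain ⟨μ, hμ⟩ : ∃ μ, μ = a ^ 2 * T * (p * p) := ⟨_, rfl⟩
  obtain ⟨H0, hH⟩ : ∃ H0, H0 = 32 * a ^ 4 * T * p := ⟨_, rfl⟩
  obtain ⟨b0, hb0⟩ : ∃ b0, b0 = H0 + n + 1 := ⟨_, rfl⟩
  obtain ⟨m0, hm0⟩ : ∃ m0, m0 = 2 ^ (3 * (n ^ 2 + 1) + n ^ 2) := ⟨_, rfl⟩
  obtain ⟨c1, c2, c3, c4, c5, c6, c7, c8, c9, -, -⟩ := num_code h hd he1 hL hlam0 hlam1
  obtain ⟨g1, g2, g3, g4⟩ := num_code2 h hth hm
  obtain ⟨hpar, hb1, hb2⟩ := num_params h hd he1 hL hlam0 hlam1 hβ hμ hH hb0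
  obtain ⟨n1, n2, n3, n4⟩ := num_count h hd hβ hμ hth hm
  -- cardinalities
  have hXc : Fintype.card (Pt d p) = d * (p * p) := by
    simp [Fintype.card_prod, ZMod.card]
  have hX : Fintype.card (Pt d p) + 1 ≤ p ^ 4 := by
    rw [hXc, hd]; exact h.cardX
  have hlst : Fintype.card (Lst d p n) ≤ 2 ^ (n ^ 2) := by
    have hT8 := h.T8
    have hT := h.T1
    calc Fintype.card (Lst d p n) ≤ (Fintype.card (Pt d p) + 1) ^ n := card_Lst
      _ ≤ (p ^ 4) ^ n := Nat.pow_le_pow_left hX _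
      _ ≤ (2 ^ (4 * (T + 1))) ^ n := Nat.pow_le_pow_left h.p4 _
      _ = 2 ^ (4 * (T + 1) * n) := by rw [← pow_mul]
      _ ≤ 2 ^ (n * n) := Nat.pow_le_pow_right (by norm_num) (Nat.mul_le_mul_right _ (by omega))
      _ = _ := by rw [sq]
  have hidx : Fintype.card (Idx d p n m0) ≤ 2 ^ (5 * n ^ 2 + 3) := by
    rw [Fintype.card_prod, Fintype.card_fin, hm0]
    calc Fintype.card (Lst d p n) * 2 ^ (3 * (n ^ 2 + 1) + n ^ 2)
        ≤ 2 ^ (n ^ 2) * 2 ^ (3 * (n ^ 2 + 1) + n ^ 2) := Nat.mul_le_mul_right _ hlst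
      _ = _ := by rw [← pow_add]; congr 1; ring
  -- the boxes
  obtain ⟨P, hP⟩ := exists_P (X := Pt d p) (n := n) (M := 4 * n) (p := p) (by
    rw [pow_mul]
    exact Nat.pow_le_pow_left hX _)
  have hsep : Sep P n (4 * n) := hP
  obtain ⟨κ, hκ⟩ := exists_Rnd (m0 := m0) (L1 := 10 * n ^ 2 + 9) (lam1 := lam1)
    (j0 := (n ^ 2 + 1) * (p * p)) (m := m) (th := th) (E := 50 * (n ^ 3 * T) - 1)
    (K := 4 * (T + 1)) (D := 2 * (T + 1)) (E5 := 8 * n ^ 2) (c := n ^ 2)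
    hsep hidx hlst (hX.trans h.p4) c1 c2 c3 c4 (by omega) c5 c6 c7 c8 c9 le_rfl hm0 g1
    (by omega) g2 (by omega) g3
  have hj : n ^ 2 * (p * p) + b0 ≤ (n ^ 2 + 1) * (p * p) := by
    rw [Nat.add_mul, one_mul]; omega
  set D := mkDesign c1 hκ (w := n) rfl hj hb2 (lam0 := lam0) (by omega) with hD
  have hLL : L = 10 * n ^ 2 + 9 + 2 * n := hL
  subst hLL
  have hrep := rep_fam D.c (2 * β)
  obtain ⟨F, hF⟩ : ∃ F, F = famF D.c (2 * β) := ⟨_, rfl⟩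
  obtain ⟨G, hG⟩ : ∃ G, G = famG D.c (2 * β) := ⟨_, rfl⟩
  have hlow : ∀ k, Run (2 ^ μ - 1) F G k → 2 ^ (μ * n) ≤ k := by
    intro k hk
    rw [hF, hG] at hk
    exact run_lower D hpar hk
  have hFc : F.card ≤ 2 ^ (6480 * μ) := by
    have h1 := card_famF (B := 2 * β) D.c (z := d + n) (fun σ => card_cw σ.1)
    have h2 : Fintype.card {σ : Idx d p n m0 // Valid (box P) σ.1.1} ≤ 2 ^ (5 * n ^ 2 + 3) :=
      (Fintype.card_subtype_le _).trans hidx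
    rw [hF]
    calc _ ≤ 2 ^ (5 * n ^ 2 + 3) * 2 ^ ((d + n) * (2 * β)) :=
          h1.trans (Nat.mul_le_mul_right _ h2)
      _ = 2 ^ ((5 * n ^ 2 + 3) + (d + n) * (2 * β)) := by rw [← pow_add]
      _ ≤ _ := Nat.pow_le_pow_right (by norm_num) n1
  have hGc : G.card ≤ 2 ^ (7840 * μ) := by
    have h1 := card_famG (B := 2 * β) D.c (T0 := 2 * m) (by
      intro J0 hJ0
      apply le_of_lt
      apply private_bound hsep hκ (J0 := J0)
      · rw [hd]; exact g4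
      · intro j hj
        obtain ⟨σ, h1, h2⟩ := hJ0 j hj
        exact ⟨σ.1, σ.2, h1, h2⟩)
    rw [hXc] at h1
    rw [hG]
    exact h1.trans n2
  have hN : F.card + G.card ≤ 2 ^ (8000 * μ) := by
    calc F.card + G.card ≤ 2 ^ (7840 * μ) + 2 ^ (7840 * μ) := by
          apply Nat.add_le_add (hFc.trans _) hGc
          exact Nat.pow_le_pow_right (by norm_num) (Nat.mul_le_mul_right _ (by norm_num))
      _ = 2 ^ (7840 * μ + 1) := by rw [pow_succ]; ring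
      _ ≤ _ := Nat.pow_le_pow_right (by norm_num) (by omega)
  obtain ⟨r, hr⟩ : ∃ r, r = n / 8000 := ⟨_, rfl⟩
  have hr1 : 8000 * r ≤ n := by omega
  have hr2 : K + c0 + 1 ≤ r := by omega
  have hr3 : n ≤ 16000 * r := by omega
  rw [← hF, ← hG] at hrep
  have hKμ : K ≤ μ := by
    have h1 := h.lo
    have h2 := h.n100
    have h3 : n ^ 1 ≤ n ^ 6 := Nat.pow_le_pow_right (by omega) (by norm_num)
    have h4 : K ≤ p := by
      rw [pow_one] at h3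
      omega
    have h5 : 1 ≤ a ^ 2 := Nat.one_le_pow _ _ (by
      have := h.hn
      omega)
    have hT := h.T1
    have hp1 : 1 ≤ p := by omega
    rw [hμ]
    calc K ≤ 1 * 1 * (p * 1) := by omega
      _ ≤ a ^ 2 * T * (p * p) := Nat.mul_le_mul (Nat.mul_le_mul h5 hT) (Nat.mul_le_mul_left _ hp1)
  have hmin : 2 ^ μ - 1 < min F.card G.card := by
    by_contra hcon
    have h1 := hlow 1 (Run.stop (not_lt.1 hcon))
    have h2 : 2 ^ 1 ≤ 2 ^ (μ * n) := by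
      apply Nat.pow_le_pow_right (by norm_num)
      have := h.n100
      exact Nat.mul_pos (by omega) (by omega)
    omega
  have hKN : K ≤ F.card + G.card := by
    have h1 : μ < 2 ^ μ := Nat.lt_two_pow_self
    have h2 := min_le_left F.card G.card
    omega
  refine ⟨Var (Pt d p) (2 * β), inferInstance, inferInstance, F, G, 2 ^ μ - 1, r,
    hrep.isDualPair, hKN, hmin.trans_le (min_le_left _ _), hmin.trans_le (min_le_right _ _),
    by omega, ?_, ?_, ?_, ?_⟩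
  · calc Nat.log 2 (F.card + G.card) ≤ Nat.log 2 (2 ^ (8000 * μ)) := Nat.log_mono_right hN
      _ = 8000 * μ := Nat.log_pow (by norm_num) _
      _ = 500 * (16 * μ) := by ring
      _ ≤ 500 * (4 * n ^ 15) := Nat.mul_le_mul_left _ n3
      _ ≤ 500 * (4 * (16000 * r) ^ 15) :=
          Nat.mul_le_mul_left _ (Nat.mul_le_mul_left _ (Nat.pow_le_pow_left hr3 _))
      _ = c0 * r ^ 15 := by rw [hc0]; ring
      _ ≤ r * r ^ 15 := Nat.mul_le_mul_right _ (by omega)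
      _ = r ^ 16 := by ring
  · have h4 : 4 ≤ 2 ^ μ := by
      calc 4 = 2 ^ 2 := by norm_num
        _ ≤ _ := Nat.pow_le_pow_right (by norm_num) n4
    have h5 : 2 ^ μ ≤ (2 ^ μ - 1) ^ 2 := sq_aux h4
    have key : ∀ q : ℕ, 2 ^ (q * μ) ≤ (2 ^ μ - 1) ^ (2 * q) := by
      intro q
      calc 2 ^ (q * μ) = (2 ^ μ) ^ q := by rw [← pow_mul, mul_comm]
        _ ≤ ((2 ^ μ - 1) ^ 2) ^ q := Nat.pow_le_pow_left h5 _
        _ = (2 ^ μ - 1) ^ (2 * q) := by rw [← pow_mul]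
    have h6 : 2 * 8000 = 16000 := by norm_num
    have h7 := key 8000
    rw [h6] at h7
    exact hN.trans h7
  · apply exists_run _ _ _ _ le_rfl
    have h4 : 2 ^ 1 ≤ 2 ^ μ := Nat.pow_le_pow_right (by norm_num) (by omega)
    omega
  · intro k hk
    calc (F.card + G.card) ^ r ≤ (2 ^ (8000 * μ)) ^ r := Nat.pow_le_pow_left hN _
      _ = 2 ^ (μ * (8000 * r)) := by rw [← pow_mul]; congr 1; ring
      _ ≤ 2 ^ (μ * n) := Nat.pow_le_pow_right (by norm_num) (Nat.mul_le_mul_left _ hr1)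
      _ ≤ k := hlow k hk

end Pool.Agent.Helper64.Free
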